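import Mathlib
import Pool.Agent.H48.BAlg
import Pool.Agent.H48.LocNil

set_option autoImplicit false

namespace Pool.Agent.Results.MP_768068_al.No

section Defs

variable (F : Type) [Field F] {B : Type} [NonUnitalNonAssocRing B] [Module F B]
  [IsScalarTower F B B] [SMulCommClass F B B]

/-- `I` is a two-sided ideal of the algebra `B`. -/
def IsIdeal (I : Submodule F B) : Prop := ∀ x ∈ I, ∀ y : B, x * y ∈ I ∧ y * x ∈ I

/-- For some `m ≥ 1`, every product of `m` elements of `s` vanishes, in every bracketing. -/
def Nilpotent (s : Set B) : Prop :=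
  ∃ m : ℕ, 1 ≤ m ∧ ∀ w : FreeMagma ℕ, w.length = m → ∀ v : ℕ → B, (∀ i, v i ∈ s) →
    FreeMagma.lift v w = 0

/-- Every subalgebra generated by finitely many elements of `I` is nilpotent. -/
def LocallyNilpotent (I : Submodule F B) : Prop :=
  ∀ s : Finset B, (∀ x ∈ s, x ∈ I) →
    Nilpotent (NonUnitalAlgebra.adjoin F (s : Set B) : Set B)

/-- `L` is the largest locally nilpotent ideal of `B`. -/
def IsLocNilRadical (L : Submodule F B) : Prop :=
  IsIdeal F L ∧ LocallyNilpotent F L ∧
    ∀ I : Submodule F B, IsIdeal F I → LocallyNilpotent F I → I ≤ L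

variable (B) in
/-- The ascending chain condition on two-sided ideals. -/
def WeaklyNoetherian : Prop :=
  ∀ I : ℕ → Submodule F B, (∀ n, IsIdeal F (I n)) → Monotone I → ∃ n, ∀ m, n ≤ m → I m = I n

variable (B) in
/-- `B` is weakly Noetherian and its locally nilpotent radical is not nilpotent. -/
def IsCounterexample : Prop :=
  WeaklyNoetherian F B ∧ ∃ L : Submodule F B, IsLocNilRadical F L ∧ ¬ Nilpotent (L : Set B)

end Defs

section Proof

open H48.LocNil Polynomial

variable {F : Type} [Field F] {B : Type} [NonUnitalNonAssocRing B] [Module F B]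
  [IsScalarTower F B B] [SMulCommClass F B B]

def word : ℕ → FreeMagma ℕ
  | 0 => FreeMagma.of 0
  | m + 1 => FreeMagma.of 0 * word m

theorem word_length (m : ℕ) : (word m).length = m + 1 := by
  induction m with
  | zero => rfl
  | succ m ih =>
    change 1 + (word m).length = _
    omega

theorem counter (h2 : (2 : F) ≠ 0) (e : B ≃ₗ[F] A F) (t : F) (ht : 1 + t ≠ 0)
    (he : ∀ x y, e (x * y) = e x * e y + t • (e y * e x)) : IsCounterexample F B := by
  have hJ : ∀ I : Submodule F B, IsIdeal F I → JI (I.map e.toLinearMap) := by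
    rintro I hI _ ⟨x, hx, rfl⟩ y
    obtain ⟨y, rfl⟩ := e.surjective y
    refine ⟨(1 + t)⁻¹ • (x * y + y * x), I.smul_mem _ (I.add_mem (hI x hx y).1 (hI x hx y).2), ?_⟩
    simp only [LinearEquiv.coe_coe, map_smul, map_add, he]
    rw [inv_smul_eq_iff₀ ht]
    module
  have hpow : ∀ (x : B) (m : ℕ),
      e (FreeMagma.lift (fun _ => x) (word m)) = (1 + t) ^ m • e x ^ (m + 1) := by
    intro x m
    induction m with
    | zero => simp [word]
    | succ m ih =>
      rw [word, map_mul, he, ih, FreeMagma.lift_of, mul_smul_comm, smul_mul_assoc, ← pow_succ,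
        ← pow_succ']
      module
  have hnil : ∀ s : Set B, Nilpotent s → ∃ m : ℕ, ∀ x ∈ s, e x ^ m = 0 := by
    rintro s ⟨m, hm, h⟩
    refine ⟨m, fun x hx => ?_⟩
    have h1 := h (word (m - 1)) (by rw [word_length]; omega) (fun _ => x) (fun _ => hx)
    have h3 := hpow x (m - 1)
    rw [h1, map_zero, Nat.sub_add_cancel hm] at h3
    exact (smul_eq_zero.mp h3.symm).resolve_left (pow_ne_zero _ ht)
  have hmul : ∀ {k i j : ℕ} {x y : B}, e x ∈ P k i → e y ∈ P k j → e (x * y) ∈ P k (i + j) := by
    intro k i j x y hx hy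
    rw [he]
    refine Submodule.add_mem _ (P_mul hx hy) (Submodule.smul_mem _ _ ?_)
    rw [add_comm]
    exact P_mul hy hx
  refine ⟨fun I hI hm => ?_, (L F).comap e.toLinearMap, ⟨fun x hx y => ?_, fun s hs => ?_,
    fun I hI hl => ?_⟩, fun h => ?_⟩
  · obtain ⟨n, hn⟩ := acc h2 (fun n => (I n).map e.toLinearMap) (fun n => hJ _ (hI n))
      (fun a b hab => Submodule.map_mono (hm hab))
    exact ⟨n, fun m hnm => Submodule.map_injective_of_injective e.injective (hn m hnm)⟩
  · have h1 := L_mul (F := F) hx (e y)
    constructor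
    · change e (x * y) ∈ L F
      rw [he]
      exact Submodule.add_mem _ h1.1 (Submodule.smul_mem _ _ h1.2)
    · change e (y * x) ∈ L F
      rw [he]
      exact Submodule.add_mem _ h1.2 (Submodule.smul_mem _ _ h1.1)
  · classical
    obtain ⟨k, hk⟩ := L_fin (s.image e) (by
      intro a ha
      obtain ⟨x, hx, rfl⟩ := Finset.mem_image.mp ha
      exact hs x hx)
    let T : NonUnitalSubalgebra F B :=
      { (P k 1).comap e.toLinearMap with
        mul_mem' := fun hx hy => P_anti (by norm_num) (hmul hx hy) }
    have hT : NonUnitalAlgebra.adjoin F (s : Set B) ≤ T :=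
      NonUnitalAlgebra.adjoin_le fun x hx => hk _ (Finset.mem_image_of_mem e hx)
    refine ⟨k + 1, by omega, fun w hw v hv => ?_⟩
    have key : ∀ w : FreeMagma ℕ, e (FreeMagma.lift v w) ∈ P k w.length := by
      intro w
      induction w with
      | ih1 i => exact hT (hv i)
      | ih2 a b ha hb =>
        rw [map_mul]
        exact hmul ha hb
    have := key w
    rw [hw] at this
    exact e.injective ((P_kill this).trans (map_zero e).symm)
  · have h1 : (1 : A F) ∉ I.map e.toLinearMap := by
      rintro ⟨x, hx, hx1⟩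
      obtain ⟨m, hm⟩ := hnil _ (hl {x} (by simpa using hx))
      have := hm x (NonUnitalAlgebra.subset_adjoin F (by simp))
      rw [show e x = 1 from hx1, one_pow] at this
      exact one_ne this
    exact Submodule.map_le_iff_le_comap.mp (le_L h2 (hJ I hI) h1)
  · obtain ⟨m, hm⟩ := hnil _ h
    have := hm (e.symm (φ F m (sc m (X ^ 1)))) (by
      change e _ ∈ L F
      rw [e.apply_symm_apply]
      exact xpow_mem_L le_rfl)
    rw [e.apply_symm_apply, pow_one, ← map_pow, ← map_pow] at this
    exact xpow_ne le_rfl this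

noncomputable def jm (F : Type) [Field F] : A F →ₗ[F] A F →ₗ[F] A F :=
  LinearMap.mul F (A F) + (LinearMap.mul F (A F)).flip

end Proof

open H48 in
/-- In each of the three classes there is a weakly Noetherian algebra whose locally nilpotent
radical is not nilpotent, over every field of characteristic not `2`. -/
theorem result (F : Type) [Field F] (h2 : (2 : F) ≠ 0) :
    (∃ (B : Type) (_ : NonUnitalNonAssocRing B) (_ : Module F B) (_ : IsScalarTower F B B)
      (_ : SMulCommClass F B B),
      (∀ x y z : B, (x * y) * z = x * (y * z)) ∧ IsCounterexample F B) ∧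
    (∃ (B : Type) (_ : NonUnitalNonAssocRing B) (_ : Module F B) (_ : IsScalarTower F B B)
      (_ : SMulCommClass F B B),
      (∀ x y : B, (x * x) * y = x * (x * y) ∧ (y * x) * x = y * (x * x)) ∧ IsCounterexample F B) ∧
    (∃ (B : Type) (_ : NonUnitalNonAssocRing B) (_ : Module F B) (_ : IsScalarTower F B B)
      (_ : SMulCommClass F B B),
      (∀ x y : B, x * y = y * x ∧ ((x * x) * y) * x = (x * x) * (y * x)) ∧
        IsCounterexample F B) := by
  have hA : IsCounterexample F (LocNil.A F) :=
    counter h2 (LinearEquiv.refl F _) 0 (by simp) (by simp)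
  refine ⟨⟨LocNil.A F, inferInstance, inferInstance, inferInstance, inferInstance, mul_assoc, hA⟩,
    ⟨LocNil.A F, inferInstance, inferInstance, inferInstance, inferInstance,
      fun x y => ⟨mul_assoc _ _ _, mul_assoc _ _ _⟩, hA⟩,
    ⟨BAlg.Alg (jm F), inferInstance, inferInstance, inferInstance, inferInstance, fun x y => ?_,
      counter h2 (BAlg.mk (jm F)).symm 1 (by rwa [one_add_one_eq_two]) fun x y => ?_⟩⟩
  · have he : ∀ x y : BAlg.Alg (jm F), (BAlg.mk (jm F)).symm (x * y) =
        (BAlg.mk (jm F)).symm x * (BAlg.mk (jm F)).symm y +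
          (BAlg.mk (jm F)).symm y * (BAlg.mk (jm F)).symm x := fun _ _ => rfl
    constructor <;> apply (BAlg.mk (jm F)).symm.injective <;> simp only [he]
    · exact add_comm _ _
    · noncomm_ring
  · rw [one_smul]
    rfl

end Pool.Agent.Results.MP_768068_al.No
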